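import Pool.Agent.W845.GL.Stm

/-!
Project GL (owner helper845), part R0: independence of the edges.
-/

set_option autoImplicit false

namespace Pool.Agent.W721.GL

open Filter MeasureTheory Finset
open Pool.Agent.W845.GL

noncomputable section

theorem r0 : S_R0 := by
  intro X W n x A
  obtain ⟨g, hg⟩ : ∃ g : Fin n × Fin n → Bool → ℝ, ∀ q b, g q b =
      (if b = true then W (x q.1) (x q.2) else 1 - W (x q.1) (x q.2)) *
        (if q ∈ A then (if b = true then (1 : ℝ) else 0) else 1) := ⟨_, fun _ _ => rfl⟩
  have key : ∀ e : Fin n × Fin n → Bool,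
      wt W x e * ∏ q ∈ A, (if e q = true then (1 : ℝ) else 0) = ∏ q, g q (e q) := by
    intro e
    unfold wt
    rw [Finset.prod_congr rfl (fun q _ => hg q (e q)), Finset.prod_mul_distrib]
    congr 1
    rw [Finset.prod_ite_mem, Finset.univ_inter]
  rw [Finset.sum_congr rfl (fun e _ => key e), ← Fintype.prod_sum]
  have h2 : ∀ q, ∑ b, g q b = if q ∈ A then W (x q.1) (x q.2) else 1 := by
    intro q
    rw [Fintype.sum_bool, hg, hg]
    split_ifs <;> simp_all
  rw [Finset.prod_congr rfl (fun q _ => h2 q), Finset.prod_ite_mem, Finset.univ_inter]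

end

end Pool.Agent.W721.GL
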